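import Mathlib

/-!
# MP_ee0f4e_nt: integrality of coefficients between powered Apery-type sums

For `s = 4` and `n = 8` there is no `r > 4` for which `c_0, …, c_8` are all integers: `c_5` is
`3`-integral only for `r ≡ 4 (mod 243)`, and then `c_8` is not `3`-integral.
-/

set_option autoImplicit false

open Finset

namespace Pool.Agent.Results.MP_ee0f4e_nt.FailsForFour

/-- The sum `A_n^{(r)} = ∑_k C(n,k)^r C(n+k,k)^r`. -/
def A (r n : ℕ) : ℚ := ∑ k ∈ range (n + 1), (n.choose k : ℚ) ^ r * ((n + k).choose k : ℚ) ^ r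

/-- The sequence `c_n^{(r,s)}`, defined by solving the identities
`A_n^{(r)} = ∑_k C(n,k)^s C(n+k,k)^s c_k` successively. -/
noncomputable def c (r s : ℕ) (n : ℕ) : ℚ :=
  (A r n - ∑ k : Fin n, (n.choose k : ℚ) ^ s * ((n + k).choose k : ℚ) ^ s * c r s k) /
    ((2 * n).choose n : ℚ) ^ s
termination_by n
decreasing_by exact k.2

lemma c_eq (r s n : ℕ) : c r s n =
    (A r n - ∑ k ∈ range n, (n.choose k : ℚ) ^ s * ((n + k).choose k : ℚ) ^ s * c r s k) /
      ((2 * n).choose n : ℚ) ^ s := by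
  rw [c, Fin.sum_univ_eq_sum_range
    (fun k => (n.choose k : ℚ) ^ s * ((n + k).choose k : ℚ) ^ s * c r s k)]

lemma diag_ne (s n : ℕ) : ((2 * n).choose n : ℚ) ^ s ≠ 0 := by
  apply pow_ne_zero
  have := Nat.centralBinom_pos n
  rw [Nat.centralBinom] at this
  exact_mod_cast this.ne'

lemma c_spec (r s n : ℕ) : A r n =
    ∑ k ∈ range (n + 1), (n.choose k : ℚ) ^ s * ((n + k).choose k : ℚ) ^ s * c r s k := by
  rw [Finset.sum_range_succ, Nat.choose_self, Nat.cast_one, one_pow, one_mul, ← two_mul, c_eq r s n,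
    mul_div_cancel₀ _ (diag_ne s n)]
  ring

lemma c_unique (r s : ℕ) (d : ℕ → ℚ) (hd : ∀ n, A r n =
    ∑ k ∈ range (n + 1), (n.choose k : ℚ) ^ s * ((n + k).choose k : ℚ) ^ s * d k) : d = c r s := by
  funext n
  induction n using Nat.strong_induction_on with
  | _ n ih =>
    have h := hd n
    rw [Finset.sum_range_succ, Nat.choose_self, Nat.cast_one, one_pow, one_mul, ← two_mul] at h
    have h2 : ∑ k ∈ range n, (n.choose k : ℚ) ^ s * ((n + k).choose k : ℚ) ^ s * d k =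
        ∑ k ∈ range n, (n.choose k : ℚ) ^ s * ((n + k).choose k : ℚ) ^ s * c r s k := by
      apply Finset.sum_congr rfl
      intro k hk
      rw [ih k (Finset.mem_range.1 hk)]
    rw [h2] at h
    rw [c_eq r s n, h, eq_div_iff (diag_ne s n)]
    ring

/-- The integer form of the identities. -/
lemma int_form (r s N : ℕ) (z : ℕ → ℤ) (hz : ∀ k ≤ N, c r s k = z k) (n : ℕ) (hn : n ≤ N) :
    ∑ k ∈ range (n + 1), ((n.choose k * (n + k).choose k : ℕ) : ℤ) ^ r =
    ∑ k ∈ range (n + 1), ((n.choose k * (n + k).choose k : ℕ) : ℤ) ^ s * z k := by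
  have h := c_spec r s n
  unfold A at h
  have h3 : ∑ k ∈ range (n + 1), (n.choose k : ℚ) ^ s * ((n + k).choose k : ℚ) ^ s * c r s k =
      ∑ k ∈ range (n + 1), (n.choose k : ℚ) ^ s * ((n + k).choose k : ℚ) ^ s * z k := by
    apply Finset.sum_congr rfl
    intro k hk
    rw [hz k (by have := Finset.mem_range.1 hk; omega)]
  rw [h3] at h
  have h4 : ((∑ k ∈ range (n + 1), ((n.choose k * (n + k).choose k : ℕ) : ℤ) ^ r : ℤ) : ℚ) =
    ((∑ k ∈ range (n + 1), ((n.choose k * (n + k).choose k : ℕ) : ℤ) ^ s * z k : ℤ) : ℚ) := by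
    push_cast
    simp only [mul_pow]
    exact h
  exact_mod_cast h4

/-- The case `r ≥ 12`. -/
lemma large (q : ℕ) (hq : 8 ≤ q) (z : ℕ → ℤ)
    (E0 : 1 = z 0)
    (E1 : 1 + 2 ^ (q + 4) = z 0 + 2 ^ 4 * z 1)
    (E2 : 1 + 6 ^ (q + 4) + 6 ^ (q + 4) = z 0 + 6 ^ 4 * z 1 + 6 ^ 4 * z 2)
    (E3 : 1 + 12 ^ (q + 4) + 30 ^ (q + 4) + 20 ^ (q + 4) =
      z 0 + 12 ^ 4 * z 1 + 30 ^ 4 * z 2 + 20 ^ 4 * z 3)
    (E5 : 1 + 30 ^ (q + 4) + 210 ^ (q + 4) + 560 ^ (q + 4) + 630 ^ (q + 4) + 252 ^ (q + 4) =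
      z 0 + 30 ^ 4 * z 1 + 210 ^ 4 * z 2 + 560 ^ 4 * z 3 + 630 ^ 4 * z 4 + 252 ^ 4 * z 5)
    (E6 : 1 + 42 ^ (q + 4) + 420 ^ (q + 4) + 1680 ^ (q + 4) + 3150 ^ (q + 4) + 2772 ^ (q + 4) +
        924 ^ (q + 4) =
      z 0 + 42 ^ 4 * z 1 + 420 ^ 4 * z 2 + 1680 ^ 4 * z 3 + 3150 ^ 4 * z 4 + 2772 ^ 4 * z 5 +
        924 ^ 4 * z 6)
    (E8 : 1 + 72 ^ (q + 4) + 1260 ^ (q + 4) + 9240 ^ (q + 4) + 34650 ^ (q + 4) +
        72072 ^ (q + 4) + 84084 ^ (q + 4) + 51480 ^ (q + 4) + 12870 ^ (q + 4) =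
      z 0 + 72 ^ 4 * z 1 + 1260 ^ 4 * z 2 + 9240 ^ 4 * z 3 + 34650 ^ 4 * z 4 + 72072 ^ 4 * z 5 +
        84084 ^ 4 * z 6 + 51480 ^ 4 * z 7 + 12870 ^ 4 * z 8) : False := by
  have z1 : z 1 = 2 ^ q := by
    rw [pow_add] at E1
    linarith
  have z2 : z 2 = 2 * 6 ^ q - 2 ^ q := by
    rw [pow_add] at E2
    linarith
  -- work modulo `3 ^ 8`
  have nil : ∀ x : ZMod 6561, x ^ 8 = 0 → x ^ q = 0 := fun x hx => pow_eq_zero_of_le hq hx
  have F3 := congrArg (Int.cast : ℤ → ZMod 6561) E3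
  have F5 := congrArg (Int.cast : ℤ → ZMod 6561) E5
  rw [← E0, z1, z2] at F3 F5
  simp only [pow_add] at F3 F5
  push_cast at F3 F5
  rw [nil 6 (by decide +kernel), nil 12 (by decide +kernel), nil 30 (by decide +kernel)] at F3
  rw [nil 6 (by decide +kernel), nil 30 (by decide +kernel), nil 210 (by decide +kernel),
    nil 630 (by decide +kernel), nil 252 (by decide +kernel)] at F5
  have c1 : (157529610000 : ZMod 6561) = 0 := by decide +kernel
  have c2 : (4032758016 : ZMod 6561) = 0 := by decide +kernel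
  have c3 : (810000 - 1944810000 - 614656 * (20736 - 810000) : ZMod 6561) = 0 := by decide +kernel
  have c6 : (3793 : ZMod 6561) * 98344960000 = 1 := by decide +kernel
  have c5 : (560 : ZMod 6561) ^ q = 20 ^ q * 28 ^ q := by
    rw [← mul_pow]; congr 1
  rw [c5] at F5
  have G : (20 : ZMod 6561) ^ q * (28 ^ q - 1) = 0 := by
    linear_combination 3793 * F5 - 3793 * 614656 * F3 + 3793 * 2 ^ q * c3 +
      3793 * ((z 4 : ℤ) : ZMod 6561) * c1 + 3793 * ((z 5 : ℤ) : ZMod 6561) * c2 -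
      ((20 : ZMod 6561) ^ q * (28 ^ q - 1)) * c6
  have G2 : (28 : ZMod 6561) ^ q = 1 := by
    have h1 : (6233 : ZMod 6561) ^ q * 20 ^ q = 1 := by
      rw [← mul_pow, show (6233 : ZMod 6561) * 20 = 1 by decide +kernel, one_pow]
    linear_combination (6233 : ZMod 6561) ^ q * G - (28 ^ q - 1) * h1
  have ho : orderOf (28 : ZMod 6561) = 3 ^ (4 + 1) := by
    apply orderOf_eq_prime_pow
    · decide +kernel
    · decide +kernel
  obtain ⟨t, rfl⟩ : 243 ∣ q := by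
    have := orderOf_dvd_of_pow_eq_one G2
    rw [ho] at this
    exact this
  clear F3 F5 c1 c2 c3 c6 c5 G G2 ho E5
  -- work modulo `3 ^ 4`
  have nil : ∀ x : ZMod 81, x ^ 8 = 0 → x ^ (243 * t) = 0 :=
    fun x hx => pow_eq_zero_of_le hq hx
  have h2 : (2 : ZMod 81) ^ (243 * t) = (-1) ^ t := by
    rw [pow_mul, show (2 : ZMod 81) ^ 243 = -1 by decide +kernel]
  have h20 : (20 : ZMod 81) ^ (243 * t) = (-1) ^ t := by
    rw [pow_mul, show (20 : ZMod 81) ^ 243 = -1 by decide +kernel]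
  have F3 := congrArg (Int.cast : ℤ → ZMod 81) E3
  rw [← E0, z1, z2] at F3
  simp only [pow_add] at F3
  push_cast at F3
  rw [nil 6 (by decide +kernel), nil 12 (by decide +kernel), nil 30 (by decide +kernel), h2,
    h20] at F3
  have E6' : (14 : ℤ) ^ 4 * 42 ^ (243 * t) + 140 ^ 4 * 420 ^ (243 * t) +
      560 ^ 4 * 1680 ^ (243 * t) + 1050 ^ 4 * 3150 ^ (243 * t) + 924 ^ 4 * 2772 ^ (243 * t) +
      308 ^ 4 * 924 ^ (243 * t) = 14 ^ 4 * z 1 + 140 ^ 4 * z 2 + 560 ^ 4 * z 3 + 1050 ^ 4 * z 4 +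
      924 ^ 4 * z 5 + 308 ^ 4 * z 6 := by
    simp only [pow_add] at E6
    linarith
  have E8' : (24 : ℤ) ^ 4 * 72 ^ (243 * t) + 420 ^ 4 * 1260 ^ (243 * t) +
      3080 ^ 4 * 9240 ^ (243 * t) + 11550 ^ 4 * 34650 ^ (243 * t) +
      24024 ^ 4 * 72072 ^ (243 * t) + 28028 ^ 4 * 84084 ^ (243 * t) +
      17160 ^ 4 * 51480 ^ (243 * t) + 4290 ^ 4 * 12870 ^ (243 * t) =
      24 ^ 4 * z 1 + 420 ^ 4 * z 2 + 3080 ^ 4 * z 3 + 11550 ^ 4 * z 4 + 24024 ^ 4 * z 5 +
        28028 ^ 4 * z 6 + 17160 ^ 4 * z 7 + 4290 ^ 4 * z 8 := by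
    simp only [pow_add] at E8
    linarith
  have F6 := congrArg (Int.cast : ℤ → ZMod 81) E6'
  have F8 := congrArg (Int.cast : ℤ → ZMod 81) E8'
  rw [z1, z2] at F6 F8
  push_cast at F6 F8
  rw [nil 42 (by decide +kernel), nil 420 (by decide +kernel), nil 1680 (by decide +kernel),
    nil 3150 (by decide +kernel), nil 2772 (by decide +kernel), nil 924 (by decide +kernel),
    nil 6 (by decide +kernel), h2] at F6
  rw [nil 72 (by decide +kernel), nil 1260 (by decide +kernel), nil 9240 (by decide +kernel),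
    nil 34650 (by decide +kernel), nil 72072 (by decide +kernel), nil 84084 (by decide +kernel),
    nil 51480 (by decide +kernel), nil 12870 (by decide +kernel), nil 6 (by decide +kernel),
    h2] at F8
  have n1 : (331776 : ZMod 81) = 0 := by decide +kernel
  have n2 : (31116960000 : ZMod 81) = 0 := by decide +kernel
  have n4 : (17796227006250000 : ZMod 81) = 0 := by decide +kernel
  have n5 : (333105095983435776 : ZMod 81) = 0 := by decide +kernel
  have n7 : (86709989583360000 : ZMod 81) = 0 := by decide +kernel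
  have n8 : (338710896810000 : ZMod 81) = 0 := by decide +kernel
  have m4 : (1215506250000 : ZMod 81) = 0 := by decide +kernel
  have m5 : (728933458176 : ZMod 81) = 0 := by decide +kernel
  have l1 : (20736 : ZMod 81) = 0 := by decide +kernel
  have l2 : (810000 : ZMod 81) = 0 := by decide +kernel
  have l3 : (13 : ZMod 81) * 160000 = 1 := by decide +kernel
  have Z3 : ((z 3 : ℤ) : ZMod 81) = (-1) ^ t := by
    linear_combination (-13) * F3 - 13 * (-1) ^ t * l1 + 13 * (-1) ^ t * l2 +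
      ((-1) ^ t - ((z 3 : ℤ) : ZMod 81)) * l3
  rw [Z3] at F6 F8
  rw [m4, m5] at F6
  rw [n1, n2, n4, n5, n7, n8] at F8
  have K : (89991784960000 - 68574961 * (38416 - 384160000 + 98344960000) : ZMod 81) = 18 := by
    decide +kernel
  have G : (18 : ZMod 81) * (-1) ^ t = 0 := by
    linear_combination (-1) * F8 + 68574961 * F6 - (-1) ^ t * K
  have he : ((-1 : ZMod 81)) ^ t * (-1) ^ t = 1 := by
    rw [← mul_pow]; simp
  have : (18 : ZMod 81) = 0 := by
    linear_combination (-1) ^ t * G - 18 * he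
  exact absurd this (by decide +kernel)

lemma key (r : ℕ) (hr : 4 < r) (z : ℕ → ℤ) (hz : ∀ k ≤ 8, c r 4 k = z k) : False := by
  have H := int_form r 4 8 z hz
  have E0 := H 0 (by norm_num)
  have E1 := H 1 (by norm_num)
  have E2 := H 2 (by norm_num)
  have E3 := H 3 (by norm_num)
  have E5 := H 5 (by norm_num)
  have E6 := H 6 (by norm_num)
  have E8 := H 8 (by norm_num)
  simp only [Finset.sum_range_succ, Finset.sum_range_zero, Nat.choose, Nat.reduceAdd, Nat.reduceMul,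
    Nat.cast_ofNat, Nat.cast_one, one_pow, one_mul, zero_add] at E0 E1 E2 E3 E5 E6 E8
  rcases Nat.lt_or_ge r 12 with h | h
  · clear H E6 E8 hz
    interval_cases r <;> omega
  · obtain ⟨q, rfl⟩ : ∃ q, r = q + 4 := ⟨r - 4, by omega⟩
    exact large q (by omega) z E0 E1 E2 E3 E5 E6 E8

/-- The sequences `c r s` are the solutions of the identities of the problem (and the only ones);
for every `r > 4` one of the numbers `c_0^{(r,4)}, …, c_8^{(r,4)}` is not an integer. -/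
theorem result :
    (∀ r s n : ℕ, A r n =
      ∑ k ∈ range (n + 1), (n.choose k : ℚ) ^ s * ((n + k).choose k : ℚ) ^ s * c r s k) ∧
    (∀ (r s : ℕ) (d : ℕ → ℚ), (∀ n, A r n =
      ∑ k ∈ range (n + 1), (n.choose k : ℚ) ^ s * ((n + k).choose k : ℚ) ^ s * d k) → d = c r s) ∧
    (∀ r : ℕ, 4 < r → ∃ k ≤ 8, ∀ z : ℤ, c r 4 k ≠ z) ∧
    ¬ ∀ s : ℕ, 1 < s → ∀ n : ℕ, ∃ r : ℕ, s < r ∧ ∀ k ≤ n, ∃ z : ℤ, c r s k = z := by
  have h4 : ∀ r : ℕ, 4 < r → ∃ k ≤ 8, ∀ z : ℤ, c r 4 k ≠ z := by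
    intro r hr
    by_contra hcon
    push Not at hcon
    choose! z hz using hcon
    exact key r hr z hz
  refine ⟨c_spec, c_unique, h4, fun h => ?_⟩
  obtain ⟨r, hr, hint⟩ := h 4 (by norm_num) 8
  obtain ⟨k, hk, hz⟩ := h4 r hr
  obtain ⟨z, hz'⟩ := hint k hk
  exact hz z hz'

end Pool.Agent.Results.MP_ee0f4e_nt.FailsForFour
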